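import Pool.Agent.PFE.StmtsE1

/-!
# Squad PFE, row CCE (helper90): the algebra `C = S[y; sigma] / y^l` inside of `A`
-/

open scoped BigOperators

noncomputable section

namespace Pool.Agent.PFE.H90

open Pool.Agent.PFE

section

variable {K A X S : Type} [Field K] [Ring A] [Algebra K A] [Group X] [Fintype X]
  [Ring S] [Algebra K S] {y : A} {l : ℕ} {χ : X →* K} {L : LS K A X S y l χ} (ρ : Rho L)

include ρ in
theorem yr (s : S) : y * ρ.r s = ρ.r (L.toGS.sg χ s) * y := by
  have h1 : ρ.r s = ∑ x, ρ.r (L.c x s) := by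
    rw [← map_sum, L.cs]
  have h2 : L.toGS.sg χ s = ∑ x, χ x • L.c x s := by
    simp [GS.sg, LinearMap.sum_apply]
  rw [h1, Finset.mul_sum, h2, map_sum, Finset.sum_mul]
  refine Finset.sum_congr rfl fun x _ => ?_
  have h3 : y * ρ.r (L.c x s) = χ x • (ρ.r (L.c x s) * y) := ρ.rx x s
  rw [h3, map_smul, smul_mul_assoc]

theorem ykr (k : ℕ) (s : S) : y ^ k * ρ.r s = ρ.r ((L.toGS.sg χ ^ k) s) * y ^ k := by
  induction k generalizing s with
  | zero => simp
  | succ k ih =>
    rw [pow_succ y k, mul_assoc, yr ρ s, ← mul_assoc, ih, mul_assoc, pow_succ (L.toGS.sg χ) k]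
    rfl

/-- the map from the coefficients to `A` -/
def Ph : (Fin l → S) →ₗ[K] A :=
  ∑ k : Fin l, (LinearMap.mulRight K (y ^ (k : ℕ))) ∘ₗ ρ.r.toLinearMap ∘ₗ LinearMap.proj k

theorem Ph_apply (f : Fin l → S) : Ph ρ f = ∑ k : Fin l, ρ.r (f k) * y ^ (k : ℕ) := by
  simp [Ph, LinearMap.sum_apply]

theorem mem_pow (yl : y ^ l = 0) (n : ℕ) (s : S) : ρ.r s * y ^ n ∈ LinearMap.range (Ph ρ) := by
  by_cases h : n < l
  · refine ⟨Pi.single ⟨n, h⟩ s, ?_⟩
    rw [Ph_apply, Finset.sum_eq_single (⟨n, h⟩ : Fin l)]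
    · simp
    · intro b _ hb
      rw [Pi.single_eq_of_ne hb, map_zero, zero_mul]
    · intro h'
      exact absurd (Finset.mem_univ _) h'
  · have : y ^ n = 0 := by
      obtain ⟨m, rfl⟩ := Nat.exists_eq_add_of_le (Nat.le_of_not_lt h)
      rw [pow_add, yl, zero_mul]
    rw [this, mul_zero]
    exact Submodule.zero_mem _

theorem mul_mem' (yl : y ^ l = 0) {a b : A} (ha : a ∈ LinearMap.range (Ph ρ))
    (hb : b ∈ LinearMap.range (Ph ρ)) : a * b ∈ LinearMap.range (Ph ρ) := by
  obtain ⟨f, rfl⟩ := ha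
  obtain ⟨g, rfl⟩ := hb
  rw [Ph_apply, Ph_apply, Finset.sum_mul_sum]
  refine Submodule.sum_mem _ fun i _ => Submodule.sum_mem _ fun j _ => ?_
  have h : ρ.r (f i) * y ^ (i : ℕ) * (ρ.r (g j) * y ^ (j : ℕ)) =
      ρ.r (f i * (L.toGS.sg χ ^ (i : ℕ)) (g j)) * y ^ ((i : ℕ) + (j : ℕ)) := by
    rw [mul_assoc, ← mul_assoc (y ^ (i : ℕ)), ykr, map_mul, pow_add]
    simp only [mul_assoc]
  rw [h]
  exact mem_pow ρ yl _ _

/-- the subalgebra `C` of `A` -/
def Cs (yl : y ^ l = 0) : Subalgebra K A where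
  carrier := LinearMap.range (Ph ρ)
  mul_mem' := mul_mem' ρ yl
  add_mem' := fun ha hb => Submodule.add_mem _ ha hb
  algebraMap_mem' := by
    intro r
    have h := mem_pow ρ yl 0 (algebraMap K S r)
    rw [pow_zero, mul_one, AlgHom.commutes] at h
    exact h

end

theorem cce : CceStmt := by
  intro K A X S J Ω Ω' _ _ _ _ _ _ _ _ _ _ _ y l χ D L F ρ
  have yl : y ^ l = 0 := D.yl
  have hl : 2 ≤ l := D.hl
  -- the form
  have ht : ∀ t : S, F.f.lam t = D.d.lam (y ^ (l - 1) * ρ.r t) := by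
    intro t
    have h1 : ρ.r t = ∑ x, ρ.r (L.c x t) := by
      rw [← map_sum, L.cs]
    have h2 : F.f.lam t = ∑ x, F.f.lam (L.c x t) := by
      rw [← map_sum, L.cs]
    rw [h1, Finset.mul_sum, map_sum, h2]
    refine Finset.sum_congr rfl fun x _ => ?_
    have h3 := F.el x ⟨ρ.r (L.c x t), ρ.rx x t⟩
    rw [ρ.rp] at h3
    exact h3
  have hz : ∀ s : S, ρ.r s * y ^ (l - 1) = 0 → s = 0 := by
    intro s hs
    have h4 : ∀ t : S, F.f.lam (t * s) = 0 := by
      intro t
      rw [ht, map_mul ρ.r, ← mul_assoc, D.ds, ← mul_assoc, hs, zero_mul, map_zero]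
    have h5 := F.f.h1 s
    rw [← h5]
    refine Finset.sum_eq_zero fun i _ => ?_
    rw [h4, zero_smul]
  have hinj : ∀ f : Fin l → S, Ph ρ f = 0 → f = 0 := by
    intro f hf
    have h6 : ∀ n (hn : n < l), f ⟨n, hn⟩ = 0 := by
      intro n
      induction n using Nat.strong_induction_on with
      | _ n ih =>
        intro hn
        apply hz
        have h7 : Ph ρ f * y ^ (l - 1 - n) = ρ.r (f ⟨n, hn⟩) * y ^ (l - 1) := by
          rw [Ph_apply, Finset.sum_mul, Finset.sum_eq_single (⟨n, hn⟩ : Fin l)]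
          · rw [mul_assoc, ← pow_add]
            congr 2
            show n + (l - 1 - n) = l - 1
            omega
          · intro b _ hb
            by_cases hbn : (b : ℕ) < n
            · have h8 := ih b hbn b.2
              rw [show f b = 0 from h8, map_zero, zero_mul, zero_mul]
            · have h9 : n < (b : ℕ) := by
                rcases Nat.lt_or_ge n (b : ℕ) with h | h
                · exact h
                · exact absurd (Fin.ext (by show (b : ℕ) = n; omega)) hb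
              have h10 : y ^ (b : ℕ) * y ^ (l - 1 - n) = 0 := by
                rw [← pow_add]
                obtain ⟨m, hm⟩ := Nat.exists_eq_add_of_le (show l ≤ (b : ℕ) + (l - 1 - n) by omega)
                rw [hm, pow_add, yl, zero_mul]
              rw [mul_assoc, h10, mul_zero]
          · intro h'
            exact absurd (Finset.mem_univ _) h'
        rw [← h7, hf, zero_mul]
    funext k
    exact h6 k k.2
  have hinj' : Function.Injective (Ph ρ) := (injective_iff_map_eq_zero _).2 hinj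
  let C := Cs ρ yl
  -- coordinates
  let E : (Fin l → S) ≃ₗ[K] LinearMap.range (Ph ρ) := LinearEquiv.ofInjective (Ph ρ) hinj'
  let T : C →ₗ[K] LinearMap.range (Ph ρ) :=
    { toFun := fun c => ⟨c.1, c.2⟩, map_add' := fun _ _ => rfl, map_smul' := fun _ _ => rfl }
  let co : ℕ → (C →ₗ[K] S) := fun k =>
    if h : k < l then (LinearMap.proj (⟨k, h⟩ : Fin l)) ∘ₗ E.symm.toLinearMap ∘ₗ T else 0
  have hEs : ∀ c : C, Ph ρ (E.symm (T c)) = (c : A) := by
    intro c
    have h : (E (E.symm (T c)) : A) = (T c : A) := by rw [LinearEquiv.apply_symm_apply]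
    exact h
  have hTE : ∀ (c : C) (f : Fin l → S), (c : A) = Ph ρ f → E.symm (T c) = f := by
    intro c f hcf
    apply hinj'
    rw [hEs, hcf]
  have hmi : ∀ s : S, ρ.r s ∈ C := by
    intro s
    have h := mem_pow ρ yl 0 s
    rw [pow_zero, mul_one] at h
    exact h
  have hmy : y ∈ C := by
    have h := mem_pow ρ yl 1 1
    rw [pow_one, map_one, one_mul] at h
    exact h
  let i : S →ₐ[K] C := ρ.r.codRestrict C hmi
  let Y : C := ⟨y, hmy⟩
  have hsum : ∀ s : ℕ → S, ((∑ k ∈ Finset.range l, i (s k) * Y ^ k : C) : A) =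
      Ph ρ (fun k => s k) := by
    intro s
    rw [Ph_apply]
    rw [show ((∑ k ∈ Finset.range l, i (s k) * Y ^ k : C) : A) =
      ∑ k ∈ Finset.range l, ((i (s k) * Y ^ k : C) : A) from by
        exact map_sum C.val _ _]
    rw [Finset.sum_range]
    rfl
  refine ⟨C, inferInstance, inferInstance, inferInstance,
    { i := i, y := Y, yl := ?_, ys := ?_, co := co, ex := ?_, un := ?_ }, C.val, ?_, rfl, ?_⟩
  · apply Subtype.ext
    show y ^ l = 0
    exact yl
  · intro s
    apply Subtype.ext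
    show y * ρ.r s = ρ.r (L.toGS.sg χ s) * y
    exact yr ρ s
  · intro c
    apply Subtype.ext
    rw [hsum (fun k => co k c), ← hEs c]
    congr 1
    funext k
    show co (k : ℕ) c = E.symm (T c) k
    have : co (k : ℕ) = (LinearMap.proj (⟨(k : ℕ), k.2⟩ : Fin l)) ∘ₗ E.symm.toLinearMap ∘ₗ T :=
      dif_pos k.2
    rw [this]
    rfl
  · intro s k hk
    have : co k = (LinearMap.proj (⟨k, hk⟩ : Fin l)) ∘ₗ E.symm.toLinearMap ∘ₗ T :=
      dif_pos hk
    rw [this]
    have h := hTE (∑ j ∈ Finset.range l, i (s j) * Y ^ j) (fun k => s k) (hsum s)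
    show E.symm (T (∑ j ∈ Finset.range l, i (s j) * Y ^ j)) ⟨k, hk⟩ = s k
    rw [h]
  · exact Subtype.val_injective
  · intro s
    rfl

end Pool.Agent.PFE.H90
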